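import Pool.Agent.Hhelper75.Low4.Gen

/-!
# A set recursive in `B` which meets a `B`-decidable sequence of dense sets of strings
-/

namespace KRed

open Low4 Encodable

/-- the `n`-th string is a proper extension of `σ` in `D c` -/
def Q (D : ℕ → List Bool → Prop) (c : ℕ) (σ : List Bool) (n : ℕ) : Prop :=
  ∃ τ, decode (α := List Bool) n = some τ ∧ ((σ <+: τ ∧ σ.length < τ.length) ∧ D c τ)

theorem dec_PQ {B : Set ℕ} {D : ℕ → List Bool → Prop}
    (hD : Dec B fun y : ℕ × List Bool => D y.1 y.2) :
    Dec B fun y : (ℕ × List Bool) × List Bool =>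
      (y.1.2 <+: y.2 ∧ y.1.2.length < y.2.length) ∧ D y.1.1 y.2 := by
  refine Dec.and (Dec.and ?_ ?_) ?_
  · refine Dec.of_eq (p := fun y : (ℕ × List Bool) × List Bool =>
      decide (y.1.2 <+: y.2) = true) (Dec.of_computable ?_) fun y => by simp
    exact Computable.comp (f := fun x : List Bool × List Bool => decide (x.1 <+: x.2))
      (g := fun y : (ℕ × List Bool) × List Bool => (y.1.2, y.2)) computable_isPrefix
      (Computable.pair (Computable.snd.comp Computable.fst) Computable.snd)
  · refine Dec.of_eq (p := fun y : (ℕ × List Bool) × List Bool =>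
      decide (y.1.2.length < y.2.length) = true) (Dec.of_computable ?_) fun y => by simp
    exact (Primrec.nat_lt.decide.to_comp).comp
      (Computable.list_length.comp (Computable.snd.comp Computable.fst))
      (Computable.list_length.comp Computable.snd)
  · exact hD.comp (f := fun y : (ℕ × List Bool) × List Bool => (y.1.1, y.2))
      (Computable.pair (Computable.fst.comp Computable.fst) Computable.snd)

theorem dec_Q {B : Set ℕ} {D : ℕ → List Bool → Prop}
    (hD : Dec B fun y : ℕ × List Bool => D y.1 y.2) :
    Dec B fun y : (ℕ × List Bool) × ℕ => Q D y.1.1 y.1.2 y.2 := by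
  constructor
  · refine CE.ex (p := fun (y : (ℕ × List Bool) × ℕ) (x : List Bool) =>
      decode (α := List Bool) y.2 = some x ∧
        ((y.1.2 <+: x ∧ y.1.2.length < x.length) ∧ D y.1.1 x)) ?_
    refine CE.and ?_ ?_
    · refine (CE.of_sig1 (Sig1.of_computable (f := fun z : ((ℕ × List Bool) × ℕ) ×
        List Bool => decide (decode (α := List Bool) z.1.2 = some z.2)) ?_)).of_eq
        fun z => by simp
      exact ((Primrec.eq (α := Option (List Bool))).decide.to_comp).comp
        (Computable.decode.comp (Computable.snd.comp Computable.fst))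
        (Computable.option_some.comp Computable.snd)
    · exact (dec_PQ hD).1.comp (f := fun z : ((ℕ × List Bool) × ℕ) × List Bool => (z.1.1, z.2))
        (Computable.pair (Computable.fst.comp Computable.fst) Computable.snd)
  · have h1 : CE B fun y : (ℕ × List Bool) × ℕ =>
        decide (decode (α := List Bool) y.2 = none) = true ∨
        ∃ x, decode (α := List Bool) y.2 = some x ∧
          ¬ ((y.1.2 <+: x ∧ y.1.2.length < x.length) ∧ D y.1.1 x) := by
      refine CE.or (CE.of_sig1 (Sig1.of_computable ?_)) ?_
      · exact ((Primrec.eq (α := Option (List Bool))).decide.to_comp).comp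
          (Computable.decode.comp Computable.snd) (Computable.const none)
      · refine CE.ex (p := fun (y : (ℕ × List Bool) × ℕ) (x : List Bool) =>
          decode (α := List Bool) y.2 = some x ∧
          ¬ ((y.1.2 <+: x ∧ y.1.2.length < x.length) ∧ D y.1.1 x)) ?_
        refine CE.and ?_ ?_
        · refine (CE.of_sig1 (Sig1.of_computable (f := fun z : ((ℕ × List Bool) × ℕ) ×
            List Bool => decide (decode (α := List Bool) z.1.2 = some z.2)) ?_)).of_eq
            fun z => by simp
          exact ((Primrec.eq (α := Option (List Bool))).decide.to_comp).comp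
            (Computable.decode.comp (Computable.snd.comp Computable.fst))
            (Computable.option_some.comp Computable.snd)
        · exact (dec_PQ hD).2.comp (f := fun z : ((ℕ × List Bool) × ℕ) × List Bool =>
            (z.1.1, z.2)) (Computable.pair (Computable.fst.comp Computable.fst) Computable.snd)
    refine h1.of_eq fun y => ?_
    simp only [Q, decide_eq_true_eq]
    rcases hd : decode (α := List Bool) y.2 with _ | x
    · simp
    · simp

section

variable {D : ℕ → List Bool → Prop} (hd : ∀ c σ, ∃ n, Q D c σ n)

open Classical in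
/-- next string in the construction -/
noncomputable def next (c : ℕ) (σ : List Bool) : List Bool :=
  (decode (α := List Bool) (Nat.find (hd c σ))).getD []

theorem next_spec (c : ℕ) (σ : List Bool) :
    (σ <+: next hd c σ ∧ σ.length < (next hd c σ).length) ∧ D c (next hd c σ) := by
  classical
  obtain ⟨x, hx, hP⟩ := Nat.find_spec (hd c σ)
  rw [next, hx]
  exact hP

theorem ce_next {B : Set ℕ} (hD : Dec B fun y : ℕ × List Bool => D y.1 y.2) :
    CE B fun y : (ℕ × List Bool) × List Bool => y.2 = next hd y.1.1 y.1.2 := by
  have hPN := dec_Q hD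
  have h1 : CE B fun y : (ℕ × List Bool) × List Bool =>
      (∃ n, Q D y.1.1 y.1.2 n ∧ (∀ m < n, ¬ Q D y.1.1 y.1.2 m) ∧
        decide (y.2 = (decode (α := List Bool) n).getD []) = true) := by
    refine CE.ex (p := fun (y : (ℕ × List Bool) × List Bool) (n : ℕ) =>
        Q D y.1.1 y.1.2 n ∧ (∀ m < n, ¬ Q D y.1.1 y.1.2 m) ∧
        decide (y.2 = (decode (α := List Bool) n).getD []) = true) ?_
    refine CE.and ?_ (CE.and ?_ ?_)
    · exact hPN.1.comp (f := fun z : ((ℕ × List Bool) × List Bool) × ℕ => (z.1.1, z.2))
        (Computable.pair (Computable.fst.comp Computable.fst) Computable.snd)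
    · refine CE.ball (p := fun (z : ((ℕ × List Bool) × List Bool) × ℕ) m =>
        ¬ Q D z.1.1.1 z.1.1.2 m) ?_ Computable.snd
      exact hPN.2.comp (f := fun w : (((ℕ × List Bool) × List Bool) × ℕ) × ℕ =>
        (w.1.1.1, w.2)) (Computable.pair (Computable.fst.comp (Computable.fst.comp
          Computable.fst)) Computable.snd)
    · refine CE.of_sig1 (Sig1.of_computable ?_)
      refine Computable.comp (f := fun x : List Bool × List Bool => decide (x.1 = x.2))
        (g := fun z : ((ℕ × List Bool) × List Bool) × ℕ => (z.1.2,
          (decode (α := List Bool) z.2).getD []))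
        ((Primrec.eq (α := List Bool)).decide.to_comp) (Computable.pair
          (Computable.snd.comp Computable.fst) ?_)
      exact Computable.option_getD (Computable.decode.comp Computable.snd) (Computable.const [])
  refine h1.of_eq fun y => ?_
  classical
  simp only [decide_eq_true_eq]
  rw [next]
  constructor
  · rintro ⟨n, hn1, hn2, hn3⟩
    have : Nat.find (hd y.1.1 y.1.2) = n := by
      rw [Nat.find_eq_iff]
      exact ⟨hn1, fun m hm => hn2 m hm⟩
    rw [this]; exact hn3
  · intro hy
    exact ⟨Nat.find (hd y.1.1 y.1.2), Nat.find_spec (hd y.1.1 y.1.2),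
      fun m hm => Nat.find_min (hd y.1.1 y.1.2) hm, hy⟩

/-- the sequence of strings of the construction -/
noncomputable def sq : ℕ → List Bool
  | 0 => []
  | n + 1 => next hd n (sq n)

theorem sq_prefix {m n : ℕ} (h : m ≤ n) : sq hd m <+: sq hd n := by
  induction h with
  | refl => exact List.prefix_rfl
  | step _ ih => exact ih.trans (next_spec hd _ _).1.1

theorem sq_length (n : ℕ) : n ≤ (sq hd n).length := by
  induction n with
  | zero => exact Nat.zero_le _
  | succ n ih => exact lt_of_le_of_lt ih (next_spec hd _ _).1.2

/-- the constructed set -/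
def GG : Set ℕ := {n | (sq hd (n + 1)).getD n false = true}

theorem sq_eq_pre (n : ℕ) : sq hd n = pre (GG hd) (sq hd n).length := by
  classical
  apply List.ext_getElem?
  intro i
  by_cases hi : i < (sq hd n).length
  · rw [pre_getElem? _ _ _ hi, List.getElem?_eq_getElem hi]
    congr 1
    have h1 : (sq hd (i + 1)).getD i false = (sq hd n).getD i false := by
      have hi' : i < (sq hd (i+1)).length :=
        lt_of_lt_of_le (Nat.lt_succ_self i) (sq_length hd (i+1))
      rcases le_total (i + 1) n with h | h
      · exact (getD_of_prefix (sq_prefix hd h) hi').symm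
      · exact getD_of_prefix (sq_prefix hd h) hi
    have h2 : (sq hd n).getD i false = (sq hd n)[i] := by
      rw [List.getD_eq_getElem _ _ hi]
    rw [← h2, ← h1]
    by_cases hh : (sq hd (i + 1)).getD i false = true
    · rw [hh]; exact (decide_eq_true (show i ∈ GG hd from hh)).symm
    · have : i ∉ GG hd := hh
      rw [decide_eq_false this]
      simpa using hh
  · rw [pre_getElem?_none _ _ _ (not_lt.1 hi), List.getElem?_eq_none (not_lt.1 hi)]

theorem ce_sq {B : Set ℕ} (hD : Dec B fun y : ℕ × List Bool => D y.1 y.2) :
    CE B fun y : ℕ × List Bool => y.2 = sq hd y.1 := by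
  have h1 : CE B fun y : ℕ × List Bool => ∃ l : List (List Bool),
      (decide (l.getD 0 [] = []) = true ∧ decide (l.getD y.1 [] = y.2) = true) ∧
      ∀ i < y.1, l.getD (i + 1) [] = next hd i (l.getD i []) := by
    refine CE.ex (p := fun (y : ℕ × List Bool) (l : List (List Bool)) =>
      (decide (l.getD 0 [] = []) = true ∧ decide (l.getD y.1 [] = y.2) = true) ∧
      ∀ i < y.1, l.getD (i + 1) [] = next hd i (l.getD i [])) ?_
    refine CE.and (CE.and ?_ ?_) ?_
    · refine CE.of_sig1 (Sig1.of_computable ?_)
      refine Computable.comp (f := fun x : List Bool × List Bool => decide (x.1 = x.2))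
        (g := fun z : (ℕ × List Bool) × List (List Bool) => (z.2.getD 0 [], []))
        ((Primrec.eq (α := List Bool)).decide.to_comp) (Computable.pair ?_ (Computable.const []))
      exact (Primrec.list_getD []).to_comp.comp Computable.snd (Computable.const 0)
    · refine CE.of_sig1 (Sig1.of_computable ?_)
      refine Computable.comp (f := fun x : List Bool × List Bool => decide (x.1 = x.2))
        (g := fun z : (ℕ × List Bool) × List (List Bool) => (z.2.getD z.1.1 [], z.1.2))
        ((Primrec.eq (α := List Bool)).decide.to_comp) (Computable.pair ?_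
          (Computable.snd.comp Computable.fst))
      exact (Primrec.list_getD []).to_comp.comp Computable.snd
        (Computable.fst.comp Computable.fst)
    · refine CE.ball (p := fun (z : (ℕ × List Bool) × List (List Bool)) i =>
        z.2.getD (i + 1) [] = next hd i (z.2.getD i [])) ?_ (Computable.fst.comp Computable.fst)
      refine (ce_next hd hD).comp (f := fun w : ((ℕ × List Bool) × List (List Bool)) × ℕ =>
        ((w.2, w.1.2.getD w.2 []), w.1.2.getD (w.2 + 1) [])) ?_
      refine Computable.pair (Computable.pair Computable.snd ?_) ?_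
      · exact (Primrec.list_getD []).to_comp.comp (Computable.snd.comp Computable.fst)
          Computable.snd
      · exact (Primrec.list_getD []).to_comp.comp (Computable.snd.comp Computable.fst)
          (Computable.succ.comp Computable.snd)
  refine h1.of_eq fun y => ?_
  simp only [decide_eq_true_eq]
  constructor
  · rintro ⟨l, ⟨h0, hn⟩, hs⟩
    rw [← hn]
    have : ∀ i ≤ y.1, l.getD i [] = sq hd i := by
      intro i
      induction i with
      | zero => intro _; rw [h0]; rfl
      | succ i ih =>
        intro hi
        rw [hs i hi, ih (Nat.le_of_succ_le hi)]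
        rfl
    exact this _ le_rfl
  · intro h
    refine ⟨(List.range (y.1 + 1)).map (sq hd), ⟨?_, ?_⟩, ?_⟩
    · rw [List.getD_eq_getElem?_getD, List.getElem?_map, List.getElem?_range (by omega)]
      rfl
    · rw [List.getD_eq_getElem?_getD, List.getElem?_map, List.getElem?_range (by omega)]
      exact h.symm
    · intro i hi
      rw [List.getD_eq_getElem?_getD, List.getElem?_map, List.getElem?_range (by omega),
        List.getD_eq_getElem?_getD, List.getElem?_map, List.getElem?_range (by omega)]
      rfl

theorem red_GG {B : Set ℕ} (hD : Dec B fun y : ℕ × List Bool => D y.1 y.2) :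
    Red (GG hd) B := by
  have key : ∀ b : Bool, CE B fun n : ℕ => ∃ σ : List Bool, σ = sq hd (n + 1) ∧
      decide (σ.getD n false = b) = true := by
    intro b
    refine CE.ex (p := fun (n : ℕ) (σ : List Bool) => σ = sq hd (n + 1) ∧
      decide (σ.getD n false = b) = true) (CE.and ?_ ?_)
    · exact (ce_sq hd hD).comp (f := fun z : ℕ × List Bool => (z.1 + 1, z.2))
        (Computable.pair (Computable.succ.comp Computable.fst) Computable.snd)
    · refine CE.of_sig1 (Sig1.of_computable ?_)
      refine Computable.comp (f := fun x : Bool × Bool => decide (x.1 = x.2))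
        (g := fun z : ℕ × List Bool => (z.2.getD z.1 false, b))
        ((Primrec.eq (α := Bool)).decide.to_comp) (Computable.pair ?_ (Computable.const b))
      exact (Primrec.list_getD false).to_comp.comp Computable.snd Computable.fst
  constructor
  · refine (key true).of_eq fun n => ?_
    simp only [exists_eq_left, decide_eq_true_eq]
    rfl
  · refine (key false).of_eq fun n => ?_
    simp only [exists_eq_left, decide_eq_true_eq]
    show _ ↔ ¬ ((sq hd (n + 1)).getD n false = true)
    simp

end

/-- If the sets `D c` of strings are dense and uniformly decidable relative to `B`, then some set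
recursive in `B` has an initial segment in every `D c`. -/
theorem exists_meet {B : Set ℕ} {D : ℕ → List Bool → Prop}
    (hD : Dec B fun y : ℕ × List Bool => D y.1 y.2)
    (hdense : ∀ c σ, ∃ τ, (σ <+: τ ∧ σ.length < τ.length) ∧ D c τ) :
    ∃ A : Set ℕ, Red A B ∧ ∀ c, ∃ s, D c (pre A s) := by
  have hd : ∀ c σ, ∃ n, Q D c σ n := by
    intro c σ
    obtain ⟨τ, hτ⟩ := hdense c σ
    exact ⟨encode τ, τ, by simp, hτ⟩
  refine ⟨GG hd, red_GG hd hD, fun c => ⟨(sq hd (c + 1)).length, ?_⟩⟩
  rw [← sq_eq_pre]
  exact (next_spec hd c (sq hd c)).2

end KRed
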