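import Pool.Agent.KRed.Sch1
import Pool.Agent.Hhelper54.AC.Kcm
import Pool.Agent.Hhelper54.AC.PreK

/-!
# Schnorr's theorem, second half: a set with incompressible initial segments is random
-/

namespace KRed

open AC Low4 Encodable Denumerable
open scoped ENNReal

namespace S2

/-- a string in the `m`-th open set, seen within the length of the string -/
def E (R : ℕ × List Bool → ℕ → Bool) (m : ℕ) (τ : List Bool) : Prop :=
  ∃ i < τ.length + 1, ∃ t < τ.length + 1, R (m, τ.take i) t = true

/-- a string which enters the `m`-th open set -/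
def N (R : ℕ × List Bool → ℕ → Bool) (m : ℕ) (τ : List Bool) : Prop :=
  E R m τ ∧ ¬ E R m τ.dropLast

theorem E_mono {R : ℕ × List Bool → ℕ → Bool} {m : ℕ} {σ τ : List Bool} (h : σ <+: τ)
    (hE : E R m σ) : E R m τ := by
  obtain ⟨i, hi, t, ht, hR⟩ := hE
  have hl := h.length_le
  refine ⟨i, by omega, t, by omega, ?_⟩
  have h1 : σ.take i = τ.take i := by
    obtain ⟨ρ, rfl⟩ := h
    rw [List.take_append_of_le_length (by omega)]
  rw [← h1]; exact hR

theorem primrec_dropLast : Primrec fun τ : List Bool => τ.dropLast := by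
  have h : Primrec fun τ : List Bool => τ.take (τ.length - 1) :=
    Primrec.list_take.comp (Primrec.nat_sub.comp Primrec.list_length (Primrec.const 1))
      Primrec.id
  exact h.of_eq fun τ => (List.dropLast_eq_take).symm

theorem primrecPred_E {R : ℕ × List Bool → ℕ → Bool} (hR : Primrec₂ R) :
    PrimrecPred fun p : ℕ × List Bool => E R p.1 p.2 := by
  have h0 : PrimrecPred fun q : ℕ × ℕ × ℕ × List Bool =>
      R (q.2.2.1, q.2.2.2.take q.2.1) q.1 = true := by
    refine Primrec.primrecPred ?_
    have h : Primrec fun q : ℕ × ℕ × ℕ × List Bool => R (q.2.2.1, q.2.2.2.take q.2.1) q.1 :=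
      hR.comp (Primrec.pair (Primrec.fst.comp (Primrec.snd.comp Primrec.snd))
        (Primrec.list_take.comp (Primrec.fst.comp Primrec.snd)
          (Primrec.snd.comp (Primrec.snd.comp Primrec.snd)))) Primrec.fst
    exact h.of_eq fun q => by simp
  have h1 : PrimrecRel fun (L : List ℕ) (y : ℕ × ℕ × List Bool) =>
      ∃ t ∈ L, R (y.2.1, y.2.2.take y.1) t = true := by
    exact PrimrecRel.exists_mem_list (R := fun (t : ℕ) (y : ℕ × ℕ × List Bool) =>
      R (y.2.1, y.2.2.take y.1) t = true) h0
  have h2 : PrimrecRel fun (L : List ℕ) (y : ℕ × List Bool) =>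
      ∃ i ∈ L, ∃ t ∈ List.range (y.2.length + 1), R (y.1, y.2.take i) t = true := by
    refine PrimrecRel.exists_mem_list (R := fun (i : ℕ) (y : ℕ × List Bool) =>
      ∃ t ∈ List.range (y.2.length + 1), R (y.1, y.2.take i) t = true) ?_
    exact PrimrecRel.comp h1 (f := fun z : ℕ × (ℕ × List Bool) => List.range (z.2.2.length + 1))
      (g := fun z : ℕ × (ℕ × List Bool) => (z.1, z.2))
      (Primrec.list_range.comp (Primrec.succ.comp (Primrec.list_length.comp
        (Primrec.snd.comp Primrec.snd))))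
      (Primrec.pair Primrec.fst Primrec.snd)
  refine PrimrecPred.of_eq (PrimrecRel.comp h2 (f := fun p : ℕ × List Bool =>
    List.range (p.2.length + 1)) (g := fun p => p)
    (Primrec.list_range.comp (Primrec.succ.comp (Primrec.list_length.comp Primrec.snd)))
    Primrec.id) fun p => ?_
  simp only [List.mem_range, E]

theorem primrecPred_N {R : ℕ × List Bool → ℕ → Bool} (hR : Primrec₂ R) :
    PrimrecPred fun p : ℕ × List Bool => N R p.1 p.2 := by
  refine (primrecPred_E hR).and (PrimrecPred.not ?_)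
  exact (primrecPred_E hR).comp (f := fun p : ℕ × List Bool => (p.1, p.2.dropLast))
    (Primrec.pair Primrec.fst (primrec_dropLast.comp Primrec.snd))

open Classical in
/-- the `i`-th request -/
noncomputable def item (R : ℕ × List Bool → ℕ → Bool) (i : ℕ) : Option (List Bool × ℕ) :=
  (decode (α := ℕ × List Bool) i).bind fun p =>
    if encode p = i ∧ N R (2 * p.1 + 2) p.2 then
      some (List.replicate (p.2.length - p.1) false, encode p.2) else none

/-- the first requests -/
noncomputable def HL (R : ℕ × List Bool → ℕ → Bool) (n : ℕ) : List (List Bool × ℕ) :=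
  (List.range n).filterMap (item R)

theorem primrec_replicate : Primrec fun n : ℕ => List.replicate n false := by
  have h : Primrec fun n : ℕ => (List.range n).map fun _ => false :=
    Primrec.list_map (f := fun n : ℕ => List.range n) (g := fun _ _ => false)
      Primrec.list_range (Primrec.const false).to₂
  exact h.of_eq fun n => by simp [List.map_const']

theorem primrec_item {R : ℕ × List Bool → ℕ → Bool} (hR : Primrec₂ R) : Primrec (item R) := by
  classical
  have ho : Primrec fun q : ℕ × (ℕ × List Bool) => q.2 := Primrec.snd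
  refine Primrec.option_bind (f := fun i : ℕ => decode (α := ℕ × List Bool) i)
    (g := fun (i : ℕ) (p : ℕ × List Bool) => if encode p = i ∧ N R (2 * p.1 + 2) p.2 then
      some (List.replicate (p.2.length - p.1) false, encode p.2) else none) Primrec.decode ?_
  refine Primrec.ite (c := fun q : ℕ × (ℕ × List Bool) =>
    encode q.2 = q.1 ∧ N R (2 * q.2.1 + 2) q.2.2) ?_ ?_ (Primrec.const none)
  · refine PrimrecPred.and ?_ ?_
    · exact PrimrecRel.comp (Primrec.eq (α := ℕ)) (Primrec.encode.comp ho) Primrec.fst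
    · refine (primrecPred_N hR).comp (f := fun q : ℕ × (ℕ × List Bool) => (2 * q.2.1 + 2, q.2.2))
        (Primrec.pair ?_ (Primrec.snd.comp ho))
      exact Primrec.nat_add.comp (Primrec.nat_mul.comp (Primrec.const 2) (Primrec.fst.comp ho))
        (Primrec.const 2)
  · refine Primrec.option_some.comp (Primrec.pair ?_ (Primrec.encode.comp (Primrec.snd.comp ho)))
    exact primrec_replicate.comp (Primrec.nat_sub.comp (Primrec.list_length.comp
      (Primrec.snd.comp ho)) (Primrec.fst.comp ho))

theorem primrec_HL {R : ℕ × List Bool → ℕ → Bool} (hR : Primrec₂ R) : Primrec (HL R) := by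
  refine Primrec.listFilterMap (f := fun n : ℕ => List.range n) (g := fun _ i => item R i)
    Primrec.list_range ?_
  exact ((primrec_item hR).comp Primrec.snd).to₂

theorem HL_prefix (R : ℕ × List Bool → ℕ → Bool) {n m : ℕ} (h : n ≤ m) : HL R n <+: HL R m := by
  obtain ⟨k, rfl⟩ := Nat.exists_eq_add_of_le h
  unfold HL
  rw [List.range_add, List.filterMap_append]
  exact List.prefix_append _ _

open Classical in
/-- weight of a request -/
noncomputable def g (R : ℕ × List Bool → ℕ → Bool) (p : ℕ × List Bool) : ℝ≥0∞ :=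
  if N R (2 * p.1 + 2) p.2 then (1 / 2) ^ (p.2.length - p.1) else 0

open Classical in
/-- weight of the `i`-th request -/
noncomputable def gi (R : ℕ × List Bool → ℕ → Bool) (i : ℕ) : ℝ≥0∞ :=
  match decode (α := ℕ × List Bool) i with
  | some p => if encode p = i then g R p else 0
  | none => 0

theorem ofReal_pow_half (k : ℕ) : (1 / 2 : ℝ≥0∞) ^ k = ENNReal.ofReal ((1 / 2 : ℝ) ^ k) := by
  rw [ENNReal.ofReal_pow (by norm_num)]
  congr 1
  rw [ENNReal.ofReal_div_of_pos (by norm_num)]
  simp

theorem pw_HL (R : ℕ × List Bool → ℕ → Bool) (n : ℕ) :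
    ENNReal.ofReal ((pw (HL R n) : ℚ) : ℝ) = ∑ i ∈ Finset.range n, gi R i := by
  induction n with
  | zero => simp [HL, pw]
  | succ n ih =>
    have h1 : HL R (n + 1) = HL R n ++ (item R n).toList := by
      unfold HL
      rw [List.range_succ, List.filterMap_append]
      congr 1
    rw [h1, pw_append, Finset.sum_range_succ, ← ih]
    push_cast
    rw [ENNReal.ofReal_add (by exact_mod_cast pw_nonneg _) (by exact_mod_cast pw_nonneg _)]
    congr 1
    unfold item gi g
    rcases hd : decode (α := ℕ × List Bool) n with _ | p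
    · simp [pw]
    · by_cases h1 : encode p = n
      · by_cases h2 : N R (2 * p.1 + 2) p.2
        · simp only [Option.bind_some, if_pos (And.intro h1 h2), if_pos h1, if_pos h2]
          rw [ofReal_pow_half]
          simp [pw]
        · simp only [Option.bind_some, if_neg (fun h : encode p = n ∧ _ => h2 h.2), if_pos h1,
            if_neg h2]
          simp [pw]
      · simp only [Option.bind_some, if_neg (fun h : encode p = n ∧ _ => h1 h.1), if_neg h1]
        simp [pw]

theorem coin_E_le {W : ℕ → List Bool → Prop} (hW : IsMLTest W)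
    {R : ℕ × List Bool → ℕ → Bool} (hR : ∀ a, W a.1 a.2 ↔ ∃ k, R a k = true) (m : ℕ) :
    ∑' τ : {τ | N R m τ}, coin (cyl (τ : List Bool)) ≤ (1 / 2) ^ m := by
  have h1 : coin (⋃ τ : {τ | N R m τ}, cyl (τ : List Bool)) =
      ∑' τ : {τ | N R m τ}, coin (cyl (τ : List Bool)) := by
    refine MeasureTheory.measure_iUnion ?_ fun τ => RanG.measurableSet_cyl _
    rintro ⟨σ, hσ⟩ ⟨τ, hτ⟩ hne
    have hne' : σ ≠ τ := fun h => hne (Subtype.ext h)
    change Disjoint (cyl σ) (cyl τ)
    rw [Set.disjoint_left]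
    intro x hx hy
    have h3 := RanG.pre_of_mem_cyl hx
    have h4 := RanG.pre_of_mem_cyl hy
    have key : ∀ σ τ : List Bool, N R m σ → N R m τ → pre {n | x n = true} σ.length = σ →
        pre {n | x n = true} τ.length = τ → σ.length < τ.length → False := by
      intro σ τ hσ hτ h3 h4 hlt
      apply hτ.2
      refine E_mono ?_ hσ.1
      rw [← h3, ← h4, List.dropLast_eq_take, pre_length, pre_take _ _ _ (by omega)]
      exact pre_le _ (by omega)
    rcases lt_trichotomy σ.length τ.length with h | h | h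
    · exact key σ τ hσ hτ h3 h4 h
    · apply hne'
      rw [← h3, ← h4, h]
    · exact key τ σ hτ hσ h4 h3 h
  rw [← h1]
  refine (MeasureTheory.measure_mono ?_).trans (hW.small m)
  intro x hx
  rw [Set.mem_iUnion] at hx
  obtain ⟨⟨τ, hτ⟩, hx⟩ := hx
  change x ∈ cyl τ at hx
  obtain ⟨⟨i, -, t, -, hRt⟩, -⟩ := hτ
  rw [Set.mem_iUnion₂]
  refine ⟨τ.take i, (hR (m, τ.take i)).2 ⟨t, hRt⟩, fun j b hj => hx j b ?_⟩
  rw [List.getElem?_take] at hj
  split_ifs at hj with hji
  exact hj

theorem len_of_N {W : ℕ → List Bool → Prop} (hW : IsMLTest W)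
    {R : ℕ × List Bool → ℕ → Bool} (hR : ∀ a, W a.1 a.2 ↔ ∃ k, R a k = true) {m : ℕ}
    {τ : List Bool} (h : E R m τ) : m ≤ τ.length := by
  obtain ⟨i, -, t, -, hRt⟩ := h
  have h1 : coin (cyl τ) ≤ (1 / 2) ^ m := by
    refine (MeasureTheory.measure_mono ?_).trans (hW.small m)
    intro x hx
    rw [Set.mem_iUnion₂]
    refine ⟨τ.take i, (hR (m, τ.take i)).2 ⟨t, hRt⟩, fun j b hj => hx j b ?_⟩
    rw [List.getElem?_take] at hj
    split_ifs at hj with hji
    exact hj
  rw [RanG.coin_cyl_eq, ofReal_pow_half, ofReal_pow_half,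
    ENNReal.ofReal_le_ofReal_iff (by positivity)] at h1
  exact (pow_le_pow_iff_right_of_lt_one₀ (by norm_num) (by norm_num)).1 h1

theorem sum_g_le {W : ℕ → List Bool → Prop} (hW : IsMLTest W)
    {R : ℕ × List Bool → ℕ → Bool} (hR : ∀ a, W a.1 a.2 ↔ ∃ k, R a k = true) (n : ℕ) :
    ∑ i ∈ Finset.range n, gi R i ≤ 1 := by
  classical
  refine (ENNReal.sum_le_tsum _).trans ?_
  have h1 : ∑' i : ℕ, gi R i = ∑' p : ℕ × List Bool, g R p := by
    have h2 : ∀ p : ℕ × List Bool, gi R (encode p) = g R p := by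
      intro p
      unfold gi
      rw [encodek]
      simp
    rw [← tsum_congr h2]
    refine (Function.Injective.tsum_eq encode_injective ?_).symm
    intro i hi
    rw [Function.mem_support] at hi
    unfold gi at hi
    rcases hd : decode (α := ℕ × List Bool) i with _ | p
    · rw [hd] at hi
      exact absurd rfl hi
    · rw [hd] at hi
      by_cases hp : encode p = i
      · exact ⟨p, hp⟩
      · simp only [if_neg hp] at hi
        exact absurd rfl hi
  rw [h1, ENNReal.tsum_prod']
  have h2 : ∀ k : ℕ, ∑' τ : List Bool, g R (k, τ) ≤ (1 / 2) ^ (1 + k + 1) := by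
    intro k
    have h3 : ∀ τ : List Bool, g R (k, τ) = 2 ^ k *
        ({τ | N R (2 * k + 2) τ}.indicator (fun τ => coin (cyl τ)) τ) := by
      intro τ
      unfold g
      by_cases h : N R (2 * k + 2) τ
      · have hl := len_of_N hW hR h.1
        rw [if_pos h, Set.indicator_of_mem (by exact h), RanG.coin_cyl_eq]
        have h4 : (1 / 2 : ℝ≥0∞) ^ τ.length = (1 / 2) ^ k * (1 / 2) ^ (τ.length - k) := by
          rw [← pow_add]; congr 1; omega
        rw [h4, ← mul_assoc, ← mul_pow]
        have h5 : (2 : ℝ≥0∞) * (1 / 2) = 1 := by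
          rw [one_div]; exact ENNReal.mul_inv_cancel (by norm_num) (by norm_num)
        rw [h5, one_pow, one_mul]
      · rw [if_neg h, Set.indicator_of_notMem (by exact h), mul_zero]
    rw [tsum_congr h3, ENNReal.tsum_mul_left, ← tsum_subtype]
    calc (2 : ℝ≥0∞) ^ k * ∑' τ : {τ | N R (2 * k + 2) τ}, coin (cyl (τ : List Bool))
        ≤ 2 ^ k * (1 / 2) ^ (2 * k + 2) := by gcongr; exact coin_E_le hW hR _
      _ = (1 / 2) ^ (1 + k + 1) := by
          have h4 : (1 / 2 : ℝ≥0∞) ^ (2 * k + 2) = (1 / 2) ^ k * (1 / 2) ^ (1 + k + 1) := by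
            rw [← pow_add]; congr 1; omega
          rw [h4, ← mul_assoc, ← mul_pow]
          have h5 : (2 : ℝ≥0∞) * (1 / 2) = 1 := by
            rw [one_div]; exact ENNReal.mul_inv_cancel (by norm_num) (by norm_num)
          rw [h5, one_pow, one_mul]
  refine (ENNReal.tsum_le_tsum h2).trans ?_
  rw [geom_tail]
  simp

theorem pw_HL_le {W : ℕ → List Bool → Prop} (hW : IsMLTest W)
    {R : ℕ × List Bool → ℕ → Bool} (hR : ∀ a, W a.1 a.2 ↔ ∃ k, R a k = true) (n : ℕ) :
    pw (HL R n) ≤ 2 := by
  have h1 := sum_g_le hW hR n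
  rw [← pw_HL, ← ENNReal.ofReal_one, ENNReal.ofReal_le_ofReal_iff (by norm_num)] at h1
  have h2 : pw (HL R n) ≤ 1 := by exact_mod_cast h1
  linarith

end S2

section

variable {U : List Bool →. ℕ}

theorem random_of_KS (hU : IsOptimal ∅ U) {B : Set ℕ} {c : ℕ}
    (hB : ∀ n, n ≤ KS U (restr B n) + c) : IsRandom B := by
  classical
  intro W hW
  by_contra hcon
  push Not at hcon
  obtain ⟨R, hRp, hR⟩ := primrec_nf (Sig1.of_re hW.re)
  obtain ⟨M, hM, hM2⟩ := exists_machine (fun σ => S2.HL R σ.length)
    ((S2.primrec_HL hRp).comp Primrec.list_length).to_comp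
    (fun σ τ h => S2.HL_prefix R h.length_le) (fun σ => S2.pw_HL_le hW hR _) ∅
  obtain ⟨c₁, hc₁⟩ := hU.simulates M hM
  set k := c + c₁ + 3 with hk
  -- the set enters the open set
  have hex : ∃ s, S2.E R (2 * k + 2) (pre B s) := by
    have h1 := hcon (2 * k + 2)
    rw [Set.mem_iUnion₂] at h1
    obtain ⟨σ, hσ, hx⟩ := h1
    obtain ⟨t, ht⟩ := (hR (2 * k + 2, σ)).1 hσ
    have h2 : pre B σ.length = σ := by
      have := RanG.pre_of_mem_cyl hx
      simpa using this
    refine ⟨max σ.length t, σ.length, ?_, t, ?_, ?_⟩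
    · rw [pre_length]; have := le_max_left σ.length t; omega
    · rw [pre_length]; have := le_max_right σ.length t; omega
    · rw [pre_take _ _ _ (le_max_left _ _), h2]; exact ht
  obtain ⟨s, hs, hmin⟩ : ∃ s, S2.E R (2 * k + 2) (pre B s) ∧
      ∀ t < s, ¬ S2.E R (2 * k + 2) (pre B t) :=
    ⟨Nat.find hex, Nat.find_spec hex, fun t ht => Nat.find_min hex ht⟩
  have hls := S2.len_of_N hW hR hs
  rw [pre_length] at hls
  have hN : S2.N R (2 * k + 2) (pre B s) := by
    refine ⟨hs, ?_⟩
    rw [List.dropLast_eq_take, pre_length, pre_take _ _ _ (by omega)]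
    exact hmin _ (by omega)
  -- the request
  set i := encode (k, pre B s) with hi
  have hof : decode (α := ℕ × List Bool) i = some (k, pre B s) := by rw [hi, encodek]
  have hmem : (List.replicate (s - k) false, encode (pre B s)) ∈ S2.HL R (i + 1) := by
    unfold S2.HL
    rw [List.mem_filterMap]
    refine ⟨i, List.mem_range.2 (Nat.lt_succ_self i), ?_⟩
    unfold S2.item
    rw [hof, Option.bind_some, if_pos ⟨hi.symm, hN⟩, pre_length]
  obtain ⟨τ, hτ1, hτ2⟩ := hM2 (i + 1) (List.replicate (s - k) false, encode (pre B s)) (by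
    rw [pre_length]
    exact hmem)
  dsimp only at hτ1 hτ2
  obtain ⟨ρ, hρ1, hρ2⟩ := hc₁ _ _ hτ1
  have h1 : KS U (pre B s) ≤ ρ.length := KC_le hρ1
  have h2 := hB s
  have h3 : restr B s = pre B s := rfl
  rw [h3] at h2
  rw [List.length_replicate] at hτ2
  omega

end

end KRed
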