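import Pool.Agent.KRed.Sch2
import Pool.Agent.KRed.Meet
import Pool.Agent.Hhelper54.AC.Cpt

/-!
# K-reducibility to random sets: the strings which cannot be followed
-/

namespace KRed

open AC Low4 Encodable

/-- `σ` has a defect of more than `c` at the length `n`: it is compressible or simpler than `τ` -/
def Df (U : List Bool →. ℕ) (c : ℕ) (τ σ : List Bool) (n : ℕ) : Prop :=
  KS U (σ.take n) + c < n ∨ KS U (σ.take n) + c < KS U (τ.take n)

/-- no string of the same length follows `τ` with constant `c` -/
def Bad (U : List Bool →. ℕ) (c : ℕ) (τ : List Bool) : Prop :=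
  ∀ σ : List Bool, σ.length = τ.length → ∃ n < τ.length + 1, Df U c τ σ n

section

variable {U : List Bool →. ℕ}

theorem bad_mono (c : ℕ) (σ τ : List Bool) (h : σ <+: τ) (hb : Bad U c σ) : Bad U c τ := by
  intro ρ hρ
  have hl := h.length_le
  obtain ⟨n, hn, hd⟩ := hb (ρ.take σ.length) (by rw [List.length_take]; omega)
  refine ⟨n, by omega, ?_⟩
  unfold Df at hd ⊢
  have h1 : (ρ.take σ.length).take n = ρ.take n := by
    rw [List.take_take]; congr 1; omega
  have h2 : σ.take n = τ.take n := by
    obtain ⟨x, rfl⟩ := h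
    rw [List.take_append_of_le_length (by omega)]
  rw [h1, h2] at hd
  exact hd

theorem bad_anti {c c' : ℕ} (h : c ≤ c') {τ : List Bool} (hb : Bad U c' τ) : Bad U c τ := by
  intro ρ hρ
  obtain ⟨n, hn, hd⟩ := hb ρ hρ
  refine ⟨n, hn, ?_⟩
  rcases hd with hd | hd
  · exact Or.inl (by omega)
  · exact Or.inr (by omega)

/-- if there are bad strings for every constant, they are dense -/
theorem bad_dense (hU : IsOptimal ∅ U) (h : ∀ c, ∃ τ, Bad U c τ) (c : ℕ) (ρ : List Bool) :
    ∃ τ, (ρ <+: τ ∧ ρ.length < τ.length) ∧ Bad U c τ := by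
  -- first pass to a longer string
  obtain ⟨ρ', hp1, hp2⟩ : ∃ ρ' : List Bool, ρ <+: ρ' ∧ ρ.length < ρ'.length :=
    ⟨ρ ++ [true], ⟨[true], rfl⟩, by simp⟩
  obtain ⟨c₁, hc₁⟩ := KS_append hU ρ'.length
  obtain ⟨c₂, hc₂⟩ := KS_drop hU ρ'.length
  obtain ⟨τ, hτ⟩ := h (c + c₁ + c₂)
  refine ⟨ρ' ++ τ, ⟨hp1.trans (List.prefix_append _ _), by rw [List.length_append]; omega⟩, ?_⟩
  intro σ hσ
  rw [List.length_append] at hσ
  obtain ⟨n, hn, hd⟩ := hτ (σ.drop ρ'.length) (by rw [List.length_drop]; omega)
  refine ⟨ρ'.length + n, by rw [List.length_append]; omega, ?_⟩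
  have h0 : σ = σ.take ρ'.length ++ σ.drop ρ'.length := (List.take_append_drop _ _).symm
  have hl : (σ.take ρ'.length).length = ρ'.length := by rw [List.length_take]; omega
  have h1 : σ.take (ρ'.length + n) = σ.take ρ'.length ++ (σ.drop ρ'.length).take n := by
    rw [List.take_add]
  have h2 : (ρ' ++ τ).take (ρ'.length + n) = ρ' ++ τ.take n := by
    rw [List.take_length_add_append]
  have h3 := hc₁ (σ.take ρ'.length) ((σ.drop ρ'.length).take n) hl
  have h4 := hc₂ ρ' (τ.take n) rfl
  unfold Df
  rw [h1, h2]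
  rcases hd with hd | hd
  · left; omega
  · right; omega

/-- `B` follows `A` with constant `c` -/
def Fol (U : List Bool →. ℕ) (c : ℕ) (A B : Set ℕ) : Prop :=
  ∀ n, n ≤ KS U (restr B n) + c ∧ KS U (restr A n) ≤ KS U (restr B n) + c

theorem fol_of_not_bad {c : ℕ} (h : ∀ τ, ¬ Bad U c τ) (A : Set ℕ) : ∃ B, Fol U c A B := by
  by_contra hcon
  push Not at hcon
  obtain ⟨N, hN⟩ := compact_tree (fun σ => ∃ n < σ.length + 1, Df U c (pre A σ.length) σ n) (by
    rintro σ τ hst ⟨n, hn, hd⟩
    have hl := hst.length_le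
    refine ⟨n, by omega, ?_⟩
    unfold Df at hd ⊢
    have h1 : σ.take n = τ.take n := by
      obtain ⟨x, rfl⟩ := hst
      rw [List.take_append_of_le_length (by omega)]
    rw [h1, pre_take _ _ _ (by omega)] at hd
    rw [pre_take _ _ _ (by omega)]
    exact hd) (by
    intro X
    have hX := hcon X
    unfold Fol at hX
    push Not at hX
    obtain ⟨n, hn⟩ := hX
    refine ⟨n, n, by rw [pre_length]; omega, ?_⟩
    unfold Df
    rw [pre_length, pre_take _ _ _ le_rfl, pre_take _ _ _ le_rfl]
    have e1 : restr X n = pre X n := rfl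
    have e2 : restr A n = pre A n := rfl
    rw [e1, e2] at hn
    by_cases h1 : n ≤ KS U (pre X n) + c
    · exact Or.inr (hn h1)
    · exact Or.inl (not_le.1 h1))
  apply h (pre A N)
  intro σ hσ
  rw [pre_length] at hσ
  have h1 := hN σ hσ
  rw [hσ] at h1
  rw [pre_length]
  exact h1

/-- bad initial segments for all constants exclude every random set -/
theorem not_red_of_bad (hU : IsOptimal ∅ U) {A : Set ℕ} (hA : ∀ c, ∃ s, Bad U c (pre A s))
    {B : Set ℕ} (hB : IsRandom B) : ¬ ∃ c, ∀ n, KS U (restr A n) ≤ KS U (restr B n) + c := by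
  rintro ⟨c₁, h1⟩
  obtain ⟨c₀, h0⟩ := random_KS hU hB
  obtain ⟨s, hs⟩ := hA (c₀ + c₁)
  obtain ⟨n, hn, hd⟩ := hs (pre B s) (by rw [pre_length, pre_length])
  rw [pre_length] at hn
  unfold Df at hd
  rw [pre_take _ _ _ (by omega), pre_take _ _ _ (by omega)] at hd
  have h2 := h0 n
  have h3 := h1 n
  have e1 : restr B n = pre B n := rfl
  have e2 : restr A n = pre A n := rfl
  rw [e1] at h2 h3
  rw [e2] at h3
  omega

/-! ### The bad strings are decidable in the halting problem -/

theorem dec_Df (hU : IsOptimal ∅ U) :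
    Dec halting fun z : ((ℕ × List Bool) × List Bool) × ℕ => Df U z.1.1.1 z.1.1.2 z.1.2 z.2 := by
  have hK := dec_KS hU
  -- decidability of `K (x) + c < K (y)`
  have key : Dec halting fun z : (List Bool × List Bool) × ℕ => KS U z.1.1 + z.2 < KS U z.1.2 := by
    have hcomp1 : Dec halting fun z : ((List Bool × List Bool) × ℕ) × ℕ => KS U z.1.1.1 ≤ z.2 :=
      hK.comp (f := fun z : ((List Bool × List Bool) × ℕ) × ℕ => (z.1.1.1, z.2))
        (Computable.pair (Computable.fst.comp (Computable.fst.comp Computable.fst)) Computable.snd)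
    have hcomp2 : Dec halting fun z : ((List Bool × List Bool) × ℕ) × ℕ =>
        KS U z.1.1.2 ≤ z.2 + z.1.2 :=
      hK.comp (f := fun z : ((List Bool × List Bool) × ℕ) × ℕ => (z.1.1.2, z.2 + z.1.2))
        (Computable.pair (Computable.snd.comp (Computable.fst.comp Computable.fst))
          (Primrec.nat_add.to_comp.comp Computable.snd (Computable.snd.comp Computable.fst)))
    constructor
    · refine (CE.ex (p := fun (z : (List Bool × List Bool) × ℕ) (k : ℕ) =>
        KS U z.1.1 ≤ k ∧ ¬ KS U z.1.2 ≤ k + z.2) (hcomp1.and hcomp2.not).1).of_eq fun z => ?_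
      constructor
      · rintro ⟨k, h1, h2⟩; omega
      · intro h; exact ⟨KS U z.1.1, le_rfl, by omega⟩
    · -- `K(y) ≤ K(x) + c` iff for some `k`, `K(y) ≤ k + c` and not `K(x) ≤ k - 1`
      have hcomp3 : Dec halting fun z : ((List Bool × List Bool) × ℕ) × ℕ =>
          KS U z.1.1.1 + 1 ≤ z.2 := by
        have h1 : Dec halting fun z : ((List Bool × List Bool) × ℕ) × ℕ =>
            decide (1 ≤ z.2) = true ∧ KS U z.1.1.1 ≤ z.2 - 1 := by
          refine Dec.and (Dec.of_computable ?_) ?_
          · exact (Primrec.nat_le.decide.to_comp).comp (Computable.const 1) Computable.snd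
          · exact hK.comp (f := fun z : ((List Bool × List Bool) × ℕ) × ℕ => (z.1.1.1, z.2 - 1))
              (Computable.pair (Computable.fst.comp (Computable.fst.comp Computable.fst))
                (Primrec.nat_sub.to_comp.comp Computable.snd (Computable.const 1)))
        refine h1.of_eq fun z => ?_
        simp only [decide_eq_true_eq]
        omega
      refine (CE.ex (p := fun (z : (List Bool × List Bool) × ℕ) (k : ℕ) =>
        (¬ KS U z.1.1 + 1 ≤ k) ∧ KS U z.1.2 ≤ k + z.2) (hcomp3.not.and hcomp2).1).of_eq fun z => ?_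
      constructor
      · rintro ⟨k, h1, h2⟩; omega
      · intro h; exact ⟨KS U z.1.1, by omega, by omega⟩
  have key2 : Dec halting fun z : (List Bool × ℕ) × ℕ => KS U z.1.1 + z.2 < z.1.2 := by
    have h1 : Dec halting fun z : (List Bool × ℕ) × ℕ =>
        decide (z.2 + 1 ≤ z.1.2) = true ∧ KS U z.1.1 ≤ z.1.2 - (z.2 + 1) := by
      refine Dec.and (Dec.of_computable ?_) ?_
      · exact (Primrec.nat_le.decide.to_comp).comp (Computable.succ.comp Computable.snd)
          (Computable.snd.comp Computable.fst)
      · exact hK.comp (f := fun z : (List Bool × ℕ) × ℕ => (z.1.1, z.1.2 - (z.2 + 1)))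
          (Computable.pair (Computable.fst.comp Computable.fst)
            (Primrec.nat_sub.to_comp.comp (Computable.snd.comp Computable.fst)
              (Computable.succ.comp Computable.snd)))
    refine h1.of_eq fun z => ?_
    simp only [decide_eq_true_eq]
    omega
  have ht1 : Computable fun z : ((ℕ × List Bool) × List Bool) × ℕ => z.1.2.take z.2 :=
    computable_take.comp (Computable.snd.comp Computable.fst) Computable.snd
  have ht2 : Computable fun z : ((ℕ × List Bool) × List Bool) × ℕ => z.1.1.2.take z.2 :=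
    computable_take.comp (Computable.snd.comp (Computable.fst.comp Computable.fst)) Computable.snd
  have hc : Computable fun z : ((ℕ × List Bool) × List Bool) × ℕ => z.1.1.1 :=
    Computable.fst.comp (Computable.fst.comp Computable.fst)
  exact Dec.or
    (key2.comp (f := fun z : ((ℕ × List Bool) × List Bool) × ℕ => ((z.1.2.take z.2, z.2), z.1.1.1))
      (Computable.pair (Computable.pair ht1 Computable.snd) hc))
    (key.comp (f := fun z : ((ℕ × List Bool) × List Bool) × ℕ =>
      ((z.1.2.take z.2, z.1.1.2.take z.2), z.1.1.1))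
      (Computable.pair (Computable.pair ht1 ht2) hc))

theorem dec_Bad (hU : IsOptimal ∅ U) : Dec halting fun y : ℕ × List Bool => Bad U y.1 y.2 := by
  have hD := dec_Df hU
  have hlen : Computable fun z : (ℕ × List Bool) × List Bool => z.1.2.length + 1 :=
    Computable.succ.comp (Computable.list_length.comp (Computable.snd.comp Computable.fst))
  constructor
  · refine ce_forall_strings (α := ℕ × List Bool) (A := halting)
      (p := fun y σ => ∃ n < y.2.length + 1, Df U y.1 y.2 σ n) ?_
      (f := fun y : ℕ × List Bool => y.2.length) (Computable.list_length.comp Computable.snd)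
    have h1 : CE halting fun z : (ℕ × List Bool) × List Bool =>
        ∃ n, decide (n < z.1.2.length + 1) = true ∧ Df U z.1.1 z.1.2 z.2 n := by
      refine CE.ex (p := fun (z : (ℕ × List Bool) × List Bool) (n : ℕ) =>
        decide (n < z.1.2.length + 1) = true ∧ Df U z.1.1 z.1.2 z.2 n) ?_
      refine CE.and (CE.of_sig1 (Sig1.of_computable ?_)) hD.1
      exact (Primrec.nat_lt.decide.to_comp).comp Computable.snd (hlen.comp Computable.fst)
    exact h1.of_eq fun z => by simp only [decide_eq_true_eq]
  · have h1 : CE halting fun y : ℕ × List Bool => ∃ σ : List Bool,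
        decide (σ.length = y.2.length) = true ∧ ∀ n < y.2.length + 1, ¬ Df U y.1 y.2 σ n := by
      refine CE.ex (p := fun (y : ℕ × List Bool) (σ : List Bool) =>
        decide (σ.length = y.2.length) = true ∧ ∀ n < y.2.length + 1, ¬ Df U y.1 y.2 σ n) ?_
      refine CE.and (CE.of_sig1 (Sig1.of_computable ?_)) ?_
      · exact ((Primrec.eq (α := ℕ)).decide.to_comp).comp
          (Computable.list_length.comp Computable.snd)
          (Computable.list_length.comp (Computable.snd.comp Computable.fst))
      · exact CE.ball (p := fun (z : (ℕ × List Bool) × List Bool) n =>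
          ¬ Df U z.1.1 z.1.2 z.2 n) hD.2 hlen
    refine h1.of_eq fun y => ?_
    simp only [decide_eq_true_eq]
    unfold Bad
    push Not
    rfl

end

end KRed
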