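import Pool.Agent.Hhelper54.AC.RanInv
import Pool.Agent.Hhelper54.AC.Kraft
import Pool.Agent.Hhelper54.AC.RanCl

/-!
# Prefix-free complexity of strings: basic facts
-/

namespace KRed

open AC Low4 Encodable

/-- prefix-free complexity of a string, with respect to the machine `U` -/
noncomputable def KS (U : List Bool →. ℕ) (σ : List Bool) : ℕ := KC U (encode σ)

section

variable {U : List Bool →. ℕ}

theorem ce_mem (hU : IsMachine ∅ U) : CE ∅ fun p : List Bool × ℕ => p.2 ∈ U p.1 :=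
  ce_graph hU.recursive

/-- the machine with the single program `[]`, which produces `x` -/
theorem exists_prog (hU : IsOptimal ∅ U) (x : ℕ) : ∃ ρ, x ∈ U ρ := by
  have hG : CE ∅ fun p : List Bool × ℕ => p.1 = [] ∧ p.2 = x := by
    refine CE.and ?_ ?_
    · refine (CE.of_sig1 (Sig1.of_computable (f := fun z : List Bool × ℕ =>
        decide (z.1 = [])) ?_)).of_eq fun z => by simp
      exact ((Primrec.eq (α := List Bool)).decide.to_comp).comp Computable.fst
        (Computable.const [])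
    · refine (CE.of_sig1 (Sig1.of_computable (f := fun z : List Bool × ℕ =>
        decide (z.2 = x)) ?_)).of_eq fun z => by simp
      exact ((Primrec.eq (α := ℕ)).decide.to_comp).comp Computable.snd (Computable.const x)
  have h1 : ∀ (a : List Bool) (u v : ℕ), (a = [] ∧ u = x) → (a = [] ∧ v = x) → u = v :=
    fun a u v h h' => h.2.trans h'.2.symm
  have hM : IsMachine ∅ (partOf fun (a : List Bool) (u : ℕ) => a = [] ∧ u = x) := by
    refine ⟨recursiveIn_of_ce (G := fun a u => a = [] ∧ u = x) hG h1, ?_⟩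
    rintro σ τ ⟨u, hu, -⟩ ⟨v, hv, -⟩ _
    rw [hu, hv]
  obtain ⟨c, hc⟩ := hU.simulates _ hM
  obtain ⟨τ, hτ, -⟩ := hc [] x ((mem_partOf h1).2 ⟨rfl, rfl⟩)
  exact ⟨τ, hτ⟩

theorem KC_le {ρ : List Bool} {x : ℕ} (h : x ∈ U ρ) : KC U x ≤ ρ.length :=
  Nat.sInf_le ⟨ρ, h, rfl⟩

theorem exists_min (hU : IsOptimal ∅ U) (x : ℕ) : ∃ ρ, x ∈ U ρ ∧ ρ.length = KC U x := by
  have hne : {l | ∃ σ, x ∈ U σ ∧ σ.length = l}.Nonempty := by
    obtain ⟨ρ, hρ⟩ := exists_prog hU x
    exact ⟨ρ.length, ρ, hρ, rfl⟩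
  exact Nat.sInf_mem hne

theorem KC_le_iff (hU : IsOptimal ∅ U) {x k : ℕ} :
    KC U x ≤ k ↔ ∃ ρ, x ∈ U ρ ∧ ρ.length ≤ k := by
  constructor
  · intro h
    obtain ⟨ρ, h1, h2⟩ := exists_min hU x
    exact ⟨ρ, h1, by omega⟩
  · rintro ⟨ρ, h1, h2⟩
    exact (KC_le h1).trans h2

/-- complexity does not increase under computable maps -/
theorem KC_map (hU : IsOptimal ∅ U) {f : ℕ → ℕ} (hf : Computable f) :
    ∃ c, ∀ x, KC U (f x) ≤ KC U x + c := by
  have hG : CE ∅ fun p : List Bool × ℕ => ∃ x, x ∈ U p.1 ∧ p.2 = f x := by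
    refine CE.ex (p := fun (p : List Bool × ℕ) (x : ℕ) => x ∈ U p.1 ∧ p.2 = f x) ?_
    refine CE.and ?_ ?_
    · exact (ce_mem hU.machine).comp (f := fun z : (List Bool × ℕ) × ℕ => (z.1.1, z.2))
        (Computable.pair (Computable.fst.comp Computable.fst) Computable.snd)
    · refine (CE.of_sig1 (Sig1.of_computable (f := fun z : (List Bool × ℕ) × ℕ =>
        decide (z.1.2 = f z.2)) ?_)).of_eq fun z => by simp
      exact ((Primrec.eq (α := ℕ)).decide.to_comp).comp (Computable.snd.comp Computable.fst)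
        (hf.comp Computable.snd)
  have h1 : ∀ (a : List Bool) (u v : ℕ), (∃ x, x ∈ U a ∧ u = f x) →
      (∃ x, x ∈ U a ∧ v = f x) → u = v := by
    rintro a u v ⟨x, hx, rfl⟩ ⟨y, hy, rfl⟩
    rw [Part.mem_unique hx hy]
  have hM : IsMachine ∅ (partOf fun (a : List Bool) (u : ℕ) => ∃ x, x ∈ U a ∧ u = f x) := by
    refine ⟨recursiveIn_of_ce (G := fun a u => ∃ x, x ∈ U a ∧ u = f x) hG h1, ?_⟩
    rintro σ τ ⟨u, x, hx, -⟩ ⟨v, y, hy, -⟩ hp
    exact hU.machine.prefixFree σ τ (Part.dom_iff_mem.2 ⟨x, hx⟩) (Part.dom_iff_mem.2 ⟨y, hy⟩) hp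
  obtain ⟨c, hc⟩ := hU.simulates _ hM
  refine ⟨c, fun x => ?_⟩
  obtain ⟨ρ, hρ1, hρ2⟩ := exists_min hU x
  obtain ⟨τ, hτ1, hτ2⟩ := hc ρ (f x) ((mem_partOf h1).2 ⟨x, hρ1, rfl⟩)
  have := KC_le hτ1
  omega

theorem KS_map (hU : IsOptimal ∅ U) {f : List Bool → List Bool} (hf : Computable f) :
    ∃ c, ∀ σ, KS U (f σ) ≤ KS U σ + c := by
  have hg : Computable fun n : ℕ => encode (((decode (α := List Bool) n).map f).getD []) := by
    refine Computable.encode.comp (Computable.option_getD ?_ (Computable.const []))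
    exact Computable.option_map Computable.decode (hf.comp Computable.snd).to₂
  obtain ⟨c, hc⟩ := KC_map hU hg
  refine ⟨c, fun σ => ?_⟩
  have := hc (encode σ)
  simpa [KS] using this

/-- prefixing a string of length `l` -/
theorem KS_append (hU : IsOptimal ∅ U) (l : ℕ) :
    ∃ c, ∀ ρ σ : List Bool, ρ.length = l → KS U (ρ ++ σ) ≤ KS U σ + c := by
  have h : ∀ ρ : List Bool, ∃ c, ∀ σ, KS U (ρ ++ σ) ≤ KS U σ + c := fun ρ =>
    KS_map hU (f := fun σ => ρ ++ σ) (Computable.list_append.comp (Computable.const ρ)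
      Computable.id)
  choose g hg using h
  refine ⟨(TA.strs l).toFinset.sup g, fun ρ σ hρ => (hg ρ σ).trans ?_⟩
  have : g ρ ≤ (TA.strs l).toFinset.sup g :=
    Finset.le_sup (f := g) (List.mem_toFinset.2 (TA.mem_strs.2 hρ))
  omega

/-- deleting the first `l` bits -/
theorem KS_drop (hU : IsOptimal ∅ U) (l : ℕ) :
    ∃ c, ∀ ρ σ : List Bool, ρ.length = l → KS U σ ≤ KS U (ρ ++ σ) + c := by
  obtain ⟨c, hc⟩ := KS_map hU (f := fun σ => σ.drop l) (by
    exact (Primrec.list_drop.comp (Primrec.const l) Primrec.id).to_comp)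
  refine ⟨c, fun ρ σ hρ => ?_⟩
  have := hc (ρ ++ σ)
  rw [List.drop_append_of_le_length (by omega), ← hρ, List.drop_length, List.nil_append] at this
  exact this

/-- `K(σ) ≤ k` is computably enumerable -/
theorem sig_KS (hU : IsOptimal ∅ U) : Sig1 fun z : List Bool × ℕ => KS U z.1 ≤ z.2 := by
  have h : CE ∅ fun z : List Bool × ℕ => ∃ ρ : List Bool, encode z.1 ∈ U ρ ∧
      decide (ρ.length ≤ z.2) = true := by
    refine CE.ex (p := fun (z : List Bool × ℕ) (ρ : List Bool) => encode z.1 ∈ U ρ ∧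
      decide (ρ.length ≤ z.2) = true) (CE.and ?_ ?_)
    · exact (ce_mem hU.machine).comp (f := fun w : (List Bool × ℕ) × List Bool =>
        (w.2, encode w.1.1)) (Computable.pair Computable.snd
          (Computable.encode.comp (Computable.fst.comp Computable.fst)))
    · refine CE.of_sig1 (Sig1.of_computable ?_)
      exact (Primrec.nat_le.decide.to_comp).comp (Computable.list_length.comp Computable.snd)
        (Computable.snd.comp Computable.fst)
  refine (RanCl.sig1_of_ce_empty h).of_eq fun z => ?_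
  simp only [decide_eq_true_eq]
  exact (KC_le_iff hU).symm

theorem dec_KS (hU : IsOptimal ∅ U) : Dec halting fun z : List Bool × ℕ => KS U z.1 ≤ z.2 :=
  RI.dec_halting (sig_KS hU)

end

end KRed
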