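import Pool.Agent.KRed.Main

/-!
# K-reducibility to random sets: the equivalences
-/

namespace KRed

open AC Low4 Encodable

section

variable {U : List Bool →. ℕ}

/-- if no constant is good, then there is a set below `∅'` with bad initial segments -/
theorem exists_bad_set (hU : IsOptimal ∅ U) (h : ∀ c, ∃ τ, Bad U c τ) :
    ∃ A : Set ℕ, LeT A halting ∧ ∀ c, ∃ s, Bad U c (pre A s) := by
  obtain ⟨A, hA1, hA2⟩ := exists_meet (D := Bad U) (dec_Bad hU) (fun c σ => bad_dense hU h c σ)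
  exact ⟨A, turing_iff_red.2 hA1, hA2⟩

/-- if no constant is good, then the sequences with bad initial segments for all constants form a
comeagre class -/
theorem isMeagre_of_bad (hU : IsOptimal ∅ U) (h : ∀ c, ∃ τ, Bad U c τ) :
    IsMeagre {x : ℕ → Bool | ¬ ∀ c, ∃ s, Bad U c (pre {n | x n = true} s)} := by
  have h1 : {x : ℕ → Bool | ¬ ∀ c, ∃ s, Bad U c (pre {n | x n = true} s)} =
      ⋃ c : ℕ, {x : ℕ → Bool | ∃ s, Bad U c (Cpt.seg x s)}ᶜ := by
    ext x
    simp only [Set.mem_iUnion, Set.mem_compl_iff, Set.mem_ofPred_eq, not_forall, Cpt.seg_eq_pre]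
  rw [h1]
  refine isMeagre_iUnion fun c => ?_
  refine IsNowhereDense.isMeagre ?_
  have ho : IsOpen {x : ℕ → Bool | ∃ s, Bad U c (Cpt.seg x s)} := by
    have : {x : ℕ → Bool | ∃ s, Bad U c (Cpt.seg x s)} =
        ⋃ s : ℕ, {x : ℕ → Bool | Bad U c (Cpt.seg x s)} := by
      ext x; simp
    rw [this]
    exact isOpen_iUnion fun s => Cpt.isOpen_seg (Bad U c) s
  have hd : Dense {x : ℕ → Bool | ∃ s, Bad U c (Cpt.seg x s)} := by
    rw [dense_iff_inter_open]
    rintro O hO ⟨x, hx⟩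
    rw [isOpen_pi_iff] at hO
    obtain ⟨I, u, hu1, hu2⟩ := hO x hx
    set s := I.sup id + 1 with hs
    obtain ⟨τ, ⟨hτ1, -⟩, hτ2⟩ := bad_dense hU h c (Cpt.seg x s)
    refine ⟨fun i => τ.getD i false, hu2 ?_, τ.length, ?_⟩
    · intro i hi
      have his : i < s := Nat.lt_succ_of_le (Finset.le_sup (f := id) hi)
      have h2 : i < (Cpt.seg x s).length := by rw [Cpt.seg_length]; exact his
      have h3 : τ.getD i false = (Cpt.seg x s).getD i false := getD_of_prefix hτ1 h2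
      change τ.getD i false ∈ u i
      rw [h3]
      have h4 : (Cpt.seg x s).getD i false = x i := by
        simp [Cpt.seg, his]
      rw [h4]
      exact (hu1 i hi).2
    · have h5 : Cpt.seg (fun i => τ.getD i false) τ.length = τ := by
        apply List.ext_getElem?
        intro i
        by_cases hi : i < τ.length
        · simp [Cpt.seg, hi]
        · simp [Cpt.seg, hi]
      rw [h5]
      exact hτ2
  rw [IsClosed.isNowhereDense_iff ho.isClosed_compl]
  rw [interior_compl, hd.closure_eq, Set.compl_univ]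

/-- a weakly 2-generic set has bad initial segments -/
theorem bad_of_generic (hU : IsOptimal ∅ U) (h : ∀ c, ∃ τ, Bad U c τ) {A : Set ℕ}
    (hA : ∀ f : List Bool →. ℕ, RecursiveIn {AC.chi halting} f →
      (∀ σ, ∃ τ, σ <+: τ ∧ (f τ).Dom) → ∃ s, (f (restr A s)).Dom) (c : ℕ) :
    ∃ s, Bad U c (pre A s) := by
  have hG : CE halting fun p : List Bool × ℕ => Bad U c p.1 ∧ p.2 = 0 := by
    refine CE.and ?_ ?_
    · exact (dec_Bad hU).1.comp (f := fun p : List Bool × ℕ => (c, p.1))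
        (Computable.pair (Computable.const c) Computable.fst)
    · refine (CE.of_sig1 (Sig1.of_computable (f := fun z : List Bool × ℕ =>
        decide (z.2 = 0)) ?_)).of_eq fun z => by simp
      exact ((Primrec.eq (α := ℕ)).decide.to_comp).comp Computable.snd (Computable.const 0)
  have h1 : ∀ (a : List Bool) (u v : ℕ), (Bad U c a ∧ u = 0) → (Bad U c a ∧ v = 0) → u = v :=
    fun a u v h h' => h.2.trans h'.2.symm
  obtain ⟨s, hs⟩ := hA (partOf fun a u => Bad U c a ∧ u = 0) (recursiveIn_of_ce hG h1) (by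
    intro σ
    obtain ⟨τ, ⟨hτ1, -⟩, hτ2⟩ := bad_dense hU h c σ
    exact ⟨τ, hτ1, 0, hτ2, rfl⟩)
  obtain ⟨u, hu, -⟩ := hs
  exact ⟨s, hu⟩

theorem main (hU : IsOptimal ∅ U) :
    List.TFAE [
      ∀ A : Set ℕ, ∃ B, IsRandom B ∧
        ∃ c, ∀ n, KC U (encode (restr A n)) ≤ KC U (encode (restr B n)) + c,
      ∀ A : Set ℕ, LeT A halting → ∃ B, IsRandom B ∧
        ∃ c, ∀ n, KC U (encode (restr A n)) ≤ KC U (encode (restr B n)) + c,
      ¬ IsMeagre {x : ℕ → Bool | ∃ B, IsRandom B ∧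
        ∃ c, ∀ n, KC U (encode (restr {n | x n = true} n)) ≤ KC U (encode (restr B n)) + c},
      ∃ c, ∀ A : Set ℕ, ∃ B, IsRandom B ∧ ∀ n, n ≤ KC U (encode (restr B n)) + c ∧
        KC U (encode (restr A n)) ≤ KC U (encode (restr B n)) + c,
      ∃ c, ∀ τ : List Bool, ∃ σ : List Bool, σ.length = τ.length ∧ ∀ n ≤ τ.length,
        n ≤ KC U (encode (σ.take n)) + c ∧
        KC U (encode (τ.take n)) ≤ KC U (encode (σ.take n)) + c] := by
  have hstr : ¬ (∃ c, ∀ τ : List Bool, ∃ σ : List Bool, σ.length = τ.length ∧ ∀ n ≤ τ.length,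
        n ≤ KC U (encode (σ.take n)) + c ∧
        KC U (encode (τ.take n)) ≤ KC U (encode (σ.take n)) + c) → ∀ c, ∃ τ, Bad U c τ := by
    intro h c
    push Not at h
    obtain ⟨τ, hτ⟩ := h c
    refine ⟨τ, fun σ hσ => ?_⟩
    obtain ⟨n, hn, hd⟩ := hτ σ hσ
    refine ⟨n, by omega, ?_⟩
    unfold Df KS
    by_cases h1 : n ≤ KC U (encode (σ.take n)) + c
    · exact Or.inr (hd h1)
    · exact Or.inl (not_le.1 h1)
  tfae_have 1 → 2 := fun h A _ => h A
  tfae_have 2 → 5 := by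
    intro h
    by_contra hcon
    obtain ⟨A, hA1, hA2⟩ := exists_bad_set hU (hstr hcon)
    obtain ⟨B, hB1, hB2⟩ := h A hA1
    exact not_red_of_bad hU hA2 hB1 hB2
  tfae_have 1 → 3 := by
    intro h
    have h1 : {x : ℕ → Bool | ∃ B, IsRandom B ∧
        ∃ c, ∀ n, KC U (encode (restr {n | x n = true} n)) ≤ KC U (encode (restr B n)) + c} =
        Set.univ := by
      ext x
      simp only [Set.mem_ofPred_eq, Set.mem_univ, iff_true]
      exact h _
    rw [h1]
    exact not_isMeagre_of_isOpen isOpen_univ Set.univ_nonempty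
  tfae_have 3 → 5 := by
    intro h
    by_contra hcon
    apply h
    refine (isMeagre_of_bad hU (hstr hcon)).mono ?_
    rintro x ⟨B, hB1, hB2⟩ hx
    exact not_red_of_bad hU hx hB1 hB2
  tfae_have 5 → 4 := by
    rintro ⟨c, hc⟩
    refine ⟨c, fun A => ?_⟩
    have hnb : ∀ τ, ¬ Bad U c τ := by
      intro τ hτ
      obtain ⟨σ, hσ1, hσ2⟩ := hc τ
      obtain ⟨n, hn, hd⟩ := hτ σ hσ1
      have h1 := hσ2 n (by omega)
      unfold Df KS at hd
      omega
    obtain ⟨B, hB⟩ := fol_of_not_bad hnb A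
    exact ⟨B, random_of_KS hU (c := c) (fun n => (hB n).1), hB⟩
  tfae_have 4 → 1 := by
    rintro ⟨c, hc⟩ A
    obtain ⟨B, hB1, hB2⟩ := hc A
    exact ⟨B, hB1, c, fun n => (hB2 n).2⟩
  tfae_finish

theorem main_generic (hU : IsOptimal ∅ U) {A : Set ℕ}
    (hA : ∀ f : List Bool →. ℕ, RecursiveIn {AC.chi halting} f →
      (∀ σ, ∃ τ, σ <+: τ ∧ (f τ).Dom) → ∃ s, (f (restr A s)).Dom) :
    (∃ B, IsRandom B ∧
        ∃ c, ∀ n, KC U (encode (restr A n)) ≤ KC U (encode (restr B n)) + c) ↔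
    ∀ A : Set ℕ, ∃ B, IsRandom B ∧
        ∃ c, ∀ n, KC U (encode (restr A n)) ≤ KC U (encode (restr B n)) + c := by
  constructor
  · rintro ⟨B, hB1, hB2⟩
    by_contra hcon
    have h5 := ((main hU).out 0 4).not.1 hcon
    have hb : ∀ c, ∃ τ, Bad U c τ := by
      intro c
      push Not at h5
      obtain ⟨τ, hτ⟩ := h5 c
      refine ⟨τ, fun σ hσ => ?_⟩
      obtain ⟨n, hn, hd⟩ := hτ σ hσ
      refine ⟨n, by omega, ?_⟩
      unfold Df KS
      by_cases h1 : n ≤ KC U (encode (σ.take n)) + c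
      · exact Or.inr (hd h1)
      · exact Or.inl (not_le.1 h1)
    exact not_red_of_bad hU (bad_of_generic hU hb hA) hB1 hB2
  · intro h
    exact h A

end

end KRed
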