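import Pool.Agent.KRed.Fin

/-!
# Existence of weakly 2-generic sets
-/

namespace KRed

open AC Low4 Encodable
open Nat.Partrec (Code)

theorem isOpen_strings (D : List Bool → Prop) : IsOpen {x : ℕ → Bool | ∃ s, D (Cpt.seg x s)} := by
  have : {x : ℕ → Bool | ∃ s, D (Cpt.seg x s)} = ⋃ s : ℕ, {x : ℕ → Bool | D (Cpt.seg x s)} := by
    ext x; simp
  rw [this]
  exact isOpen_iUnion fun s => Cpt.isOpen_seg D s

theorem dense_strings {D : List Bool → Prop} (h : ∀ σ, ∃ τ, σ <+: τ ∧ D τ) :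
    Dense {x : ℕ → Bool | ∃ s, D (Cpt.seg x s)} := by
  rw [dense_iff_inter_open]
  rintro O hO ⟨x, hx⟩
  rw [isOpen_pi_iff] at hO
  obtain ⟨I, u, hu1, hu2⟩ := hO x hx
  set s := I.sup id + 1 with hs
  obtain ⟨τ, hτ1, hτ2⟩ := h (Cpt.seg x s)
  refine ⟨fun i => τ.getD i false, hu2 ?_, τ.length, ?_⟩
  · intro i hi
    have his : i < s := Nat.lt_succ_of_le (Finset.le_sup (f := id) hi)
    have h2 : i < (Cpt.seg x s).length := by rw [Cpt.seg_length]; exact his
    have h3 : τ.getD i false = (Cpt.seg x s).getD i false := getD_of_prefix hτ1 h2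
    change τ.getD i false ∈ u i
    rw [h3]
    have h4 : (Cpt.seg x s).getD i false = x i := by
      simp [Cpt.seg, his]
    rw [h4]
    exact (hu1 i hi).2
  · have h5 : Cpt.seg (fun i => τ.getD i false) τ.length = τ := by
      apply List.ext_getElem?
      intro i
      by_cases hi : i < τ.length
      · simp [Cpt.seg, hi]
      · simp [Cpt.seg, hi]
    rw [h5]
    exact hτ2

/-- the set of strings with index `c` -/
def Dc (A : Set ℕ) (c : Code) (τ : List Bool) : Prop :=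
  ∃ s, (Code.eval c (encode (pre A s, τ))).Dom

theorem exists_index {A : Set ℕ} {f : List Bool →. ℕ} (hf : RecursiveIn {AC.chi A} f) :
    ∃ c : Code, ∀ τ, (f τ).Dom ↔ Dc A c τ := by
  have h1 : CE A fun τ : List Bool => ∃ x : ℕ, x ∈ f τ := CE.ex (p := fun τ x => x ∈ f τ)
    (ce_graph hf)
  obtain ⟨W, hW1, -, hW3⟩ := h1
  obtain ⟨c, hc⟩ := Code.exists_code.1 hW1.re
  refine ⟨c, fun τ => ?_⟩
  rw [Part.dom_iff_mem]
  refine (hW3 τ).trans (exists_congr fun s => ?_)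
  have h2 := congrFun hc (encode (pre A s, τ))
  rw [h2]
  simp only [encodek, Part.coe_some, Part.bind_some]
  constructor
  · intro h; exact ⟨h, trivial⟩
  · rintro ⟨h, -⟩; exact h

theorem exists_generic (A : Set ℕ) : ∃ G : Set ℕ, ∀ f : List Bool →. ℕ,
    RecursiveIn {AC.chi A} f → (∀ σ, ∃ τ, σ <+: τ ∧ (f τ).Dom) → ∃ s, (f (restr G s)).Dom := by
  classical
  let O : Code → Set (ℕ → Bool) := fun c =>
    if ∀ σ, ∃ τ, σ <+: τ ∧ Dc A c τ then {x | ∃ s, Dc A c (Cpt.seg x s)} else Set.univ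
  have h1 : ∀ c, IsOpen (O c) := by
    intro c
    by_cases h : ∀ σ, ∃ τ, σ <+: τ ∧ Dc A c τ
    · simp only [O, if_pos h]; exact isOpen_strings _
    · simp only [O, if_neg h]; exact isOpen_univ
  have h2 : ∀ c, Dense (O c) := by
    intro c
    by_cases h : ∀ σ, ∃ τ, σ <+: τ ∧ Dc A c τ
    · simp only [O, if_pos h]; exact dense_strings h
    · simp only [O, if_neg h]; exact dense_univ
  obtain ⟨x, hx⟩ := (dense_iInter_of_isOpen h1 h2).nonempty
  rw [Set.mem_iInter] at hx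
  refine ⟨{n | x n = true}, fun f hf hd => ?_⟩
  obtain ⟨c, hc⟩ := exists_index hf
  have h3 : ∀ σ, ∃ τ, σ <+: τ ∧ Dc A c τ := by
    intro σ
    obtain ⟨τ, hτ1, hτ2⟩ := hd σ
    exact ⟨τ, hτ1, (hc τ).1 hτ2⟩
  have h4 := hx c
  simp only [O, if_pos h3] at h4
  obtain ⟨s, hs⟩ := h4
  refine ⟨s, (hc _).2 ?_⟩
  rw [Cpt.seg_eq_pre] at hs
  exact hs

end KRed
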