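import Pool.Agent.KRed.Basic
import Pool.Agent.Hhelper54.AC.RanG

/-!
# Schnorr's theorem, first half: initial segments of random sets are incompressible
-/

namespace KRed

open AC Low4 Encodable
open scoped ENNReal

theorem sum_ennreal_le {ι : Type} (S : Finset ι) (f : ι → ℕ)
    (h : ∑ i ∈ S, (1 / 2 : ℚ) ^ f i ≤ 1) : ∑ i ∈ S, (1 / 2 : ℝ≥0∞) ^ f i ≤ 1 := by
  have h1 : ∀ k : ℕ, (1 / 2 : ℝ≥0∞) ^ k = ENNReal.ofReal ((1 / 2 : ℝ) ^ k) := by
    intro k
    rw [ENNReal.ofReal_pow (by norm_num)]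
    congr 1
    rw [ENNReal.ofReal_div_of_pos (by norm_num)]
    simp
  have h2 : ((∑ i ∈ S, (1 / 2 : ℚ) ^ f i : ℚ) : ℝ) ≤ ((1 : ℚ) : ℝ) := by exact_mod_cast h
  push_cast at h2
  calc ∑ i ∈ S, (1 / 2 : ℝ≥0∞) ^ f i = ∑ i ∈ S, ENNReal.ofReal ((1 / 2 : ℝ) ^ f i) :=
        Finset.sum_congr rfl fun i _ => h1 _
    _ = ENNReal.ofReal (∑ i ∈ S, (1 / 2 : ℝ) ^ f i) :=
        (ENNReal.ofReal_sum_of_nonneg fun i _ => by positivity).symm
    _ ≤ ENNReal.ofReal 1 := ENNReal.ofReal_le_ofReal h2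
    _ = 1 := ENNReal.ofReal_one

section

variable {U : List Bool →. ℕ}

/-- Kraft's inequality for the complexity of strings -/
theorem kraft_KS (hU : IsOptimal ∅ U) (S : Finset (List Bool)) :
    ∑ σ ∈ S, (1 / 2 : ℚ) ^ KS U σ ≤ 1 := by
  classical
  choose g hg1 hg2 using fun σ : List Bool => exists_min hU (encode σ)
  have hinj : Function.Injective g := by
    intro σ τ h
    have h1 := hg1 σ
    rw [h] at h1
    exact encode_injective (Part.mem_unique h1 (hg1 τ))
  have h1 := Kr.kraft (S.image g) (by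
    intro σ hσ τ hτ hp
    obtain ⟨a, -, rfl⟩ := Finset.mem_image.1 hσ
    obtain ⟨b, -, rfl⟩ := Finset.mem_image.1 hτ
    exact hU.machine.prefixFree _ _ (Part.dom_iff_mem.2 ⟨_, hg1 a⟩)
      (Part.dom_iff_mem.2 ⟨_, hg1 b⟩) hp)
  rw [Finset.sum_image (fun a _ b _ h => hinj h)] at h1
  refine le_trans (le_of_eq (Finset.sum_congr rfl fun σ _ => ?_)) h1
  rw [hg2 σ]
  rfl

/-- the test of compressible strings -/
def Wt (U : List Bool →. ℕ) (m : ℕ) (σ : List Bool) : Prop := KS U σ + m ≤ σ.length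

theorem isMLTest_Wt (hU : IsOptimal ∅ U) : IsMLTest (Wt U) := by
  constructor
  · have h1 : Sig1 fun p : ℕ × List Bool => decide (p.1 ≤ p.2.length) = true ∧
        KS U p.2 ≤ p.2.length - p.1 := by
      refine Sig1.and (Sig1.of_computable ?_) ?_
      · exact (Primrec.nat_le.decide.to_comp).comp Computable.fst
          (Computable.list_length.comp Computable.snd)
      · exact (sig_KS hU).comp (f := fun p : ℕ × List Bool => (p.2, p.2.length - p.1))
          (Computable.pair Computable.snd (Primrec.nat_sub.to_comp.comp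
            (Computable.list_length.comp Computable.snd) Computable.fst))
    refine (h1.of_eq fun p => ?_).re
    simp only [Wt, decide_eq_true_eq]
    omega
  · intro m
    refine (MeasureTheory.measure_biUnion_le coin (Set.to_countable _) _).trans ?_
    rw [ENNReal.tsum_eq_iSup_sum]
    refine iSup_le fun S => ?_
    have h1 : ∑ i ∈ S, coin (cyl (i : List Bool)) ≤
        ∑ i ∈ S, (1 / 2 : ℝ≥0∞) ^ m * (1 / 2) ^ KS U (i : List Bool) := by
      refine Finset.sum_le_sum fun i _ => (coin_cyl _).trans ?_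
      have hi : KS U (i : List Bool) + m ≤ (i : List Bool).length := i.2
      rw [← pow_add]
      exact pow_le_pow_of_le_one (by simp) (by simp) (by omega)
    refine h1.trans ?_
    rw [← Finset.mul_sum]
    have h2 : ∑ i ∈ S, (1 / 2 : ℝ≥0∞) ^ KS U (i : List Bool) ≤ 1 := by
      refine sum_ennreal_le S (fun i => KS U (i : List Bool)) ?_
      have h3 := kraft_KS hU (S.map (Function.Embedding.subtype _))
      rw [Finset.sum_map] at h3
      exact h3
    calc (1 / 2 : ℝ≥0∞) ^ m * ∑ i ∈ S, (1 / 2 : ℝ≥0∞) ^ KS U (i : List Bool)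
        ≤ (1 / 2) ^ m * 1 := by gcongr
      _ = (1 / 2) ^ m := mul_one _

theorem random_KS (hU : IsOptimal ∅ U) {B : Set ℕ} (hB : IsRandom B) :
    ∃ c, ∀ n, n ≤ KS U (restr B n) + c := by
  obtain ⟨m, hm⟩ := hB _ (isMLTest_Wt hU)
  refine ⟨m, fun n => ?_⟩
  by_contra hcon
  push Not at hcon
  apply hm
  rw [Set.mem_iUnion₂]
  refine ⟨restr B n, ?_, ?_⟩
  · have : (restr B n).length = n := by simp [restr]
    change KS U (restr B n) + m ≤ (restr B n).length
    omega
  · exact RanG.mem_cyl_pre B n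

end

end KRed
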